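import Pool.Agent.H65.Spectra

set_option autoImplicit false

namespace Pool.Agent.Results.MP_7e83e7_gt.SteklovNotNeumann

open Pool.Agent.H65.Steklov

/-- There are two Riemannian metrics on the compact connected `4`-manifold with boundary
`[0, π] × (ℝ/2πℤ)³` which are Steklov isospectral but not Neumann isospectral.

The metrics are explicit. With `S = sin² x₀`, `C = √(1 + S²)`:
`g₁ = dx₀² + dx₁² + 100 ((C - S cos x₁) dx₂² - 2 S sin x₁ dx₂ dx₃ + (C + S cos x₁) dx₃²)` and
`g₂ = (C + S cos x₁) (dx₀² + dx₁²) + 100 (dx₂² + dx₃²)`.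
On the Fourier mode `exp (i (n₁ x₂ + n₂ x₃))` harmonicity for `g₁`, resp. `g₂`, is the equation
`(∂₀² + ∂₁²) v = (|n|² / 100) (C + S cos (x₁ - t)) v`, with `t = 2 arg (n₁ + i n₂)`, resp. `t = 0`, so that
the two Dirichlet-to-Neumann maps are unitarily equivalent mode by mode; but `1/100` is a Neumann
eigenvalue of `g₂` and not of `g₁` (the two volumes also differ). -/
theorem result : ∃ g₁ g₂ : RiemannianMetric 3,
    SteklovIsospectral g₁ g₂ ∧ ¬ NeumannIsospectral g₁ g₂ :=
  ⟨metric₁, metric₂, steklov_isospectral, not_neumann_isospectral⟩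

end Pool.Agent.Results.MP_7e83e7_gt.SteklovNotNeumann
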